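import Pool.Agent.H793.Nil.S9Final

/-!
Heisenberg nilmanifolds show that in the bound `m_k ≤ C (k + Vol (κ^(n/2) + inj^(-n)))` for the
multiplicities of the Laplace eigenvalues of closed Riemannian manifolds with `Ric ≥ -(n-1) κ` the
index `k` cannot be replaced by `k^α` with `α < 1` in dimension `n = 3`; in particular it cannot be
replaced by `k^(1 - 1/n)`.
-/

set_option autoImplicit false

open scoped ContDiff Topology
open MeasureTheory Matrix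

namespace Pool.Agent.Results.MP_1b44ce_gt.NoSublinearIndexBound

open Pool.Agent.H85R3.RM Pool.Agent.H793.Nil

/-- For every closed connected Riemannian `n`-manifold `M` with `Ric ≥ -(n - 1) κ`, `κ ≥ 0`, and
every `k ≥ 1` the multiplicity of the eigenvalue `λ_k` is at most
`C (k ^ α + Vol (κ ^ (n / 2) + inj ^ (-n)))`. -/
def MultBound (n : ℕ) (α C : ℝ) : Prop :=
  ∀ (M : ClosedManifold n) (κ : ℝ), 0 ≤ κ → RicciGE M (-((n - 1) * κ)) → ∀ k : ℕ, 1 ≤ k →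
    ∀ m : ℕ, (m : ℕ∞) ≤ eigenMultiplicity M k →
      (m : ℝ) ≤ C * ((k : ℝ) ^ α + vol M * (κ ^ ((n : ℝ) / 2) + (injRadius M)⁻¹ ^ n))

theorem family (c : ℕ) (hc : 0 < c) : ∃ K : ℕ, 0 < K ∧ ∀ e : ℕ, 0 < e → ∃ M : ClosedManifold 3,
    RicciGE M (-((3 - 1) * (1 / 4))) ∧ vol M = e ∧ 1 / 8 ≤ injRadius M ∧
      ∃ k : ℕ, 1 ≤ k ∧ k ≤ K * e ∧ ((c * e : ℕ) : ℕ∞) ≤ eigenMultiplicity M k := by
  obtain ⟨K, hK, h⟩ := mult_heis c hc
  exact ⟨K, hK, fun e he => ⟨heis e he, ricci_heis e he, vol_heis he, injRadius_heis e he, h e he⟩⟩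

theorem no_bound (α : ℝ) (hα : α < 1) : ¬ ∃ C : ℝ, MultBound 3 α C := by
  rintro ⟨C, hC⟩
  set β : ℝ := max α 0 with hβ
  have hβ0 : 0 ≤ β := le_max_right _ _
  have hβ1 : β < 1 := max_lt hα one_pos
  set D : ℝ := max C 1 with hD
  have hD1 : 1 ≤ D := le_max_right _ _
  obtain ⟨c, hc⟩ := exists_nat_gt (D * 513 + 1)
  have hc0 : 0 < c := by
    have : (0 : ℝ) < c := by linarith
    exact_mod_cast this
  obtain ⟨K, hK, hfam⟩ := family c hc0
  have hKR : (0 : ℝ) < K := Nat.cast_pos.mpr hK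
  -- choose the volume
  have htend : Filter.Tendsto (fun e : ℕ => (e : ℝ) ^ (1 - β)) Filter.atTop Filter.atTop :=
    (tendsto_rpow_atTop (by linarith)).comp tendsto_natCast_atTop_atTop
  obtain ⟨e, he1, he0⟩ := ((htend.eventually_gt_atTop (D * (K : ℝ) ^ β)).and
    (Filter.eventually_gt_atTop 0)).exists
  have heR : (0 : ℝ) < e := Nat.cast_pos.mpr he0
  obtain ⟨M, hM1, hM2, hM3, k, hk1, hk2, hk3⟩ := hfam e he0
  have hbound := hC M (1 / 4) (by norm_num) (by exact_mod_cast hM1) k hk1 (c * e) hk3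
  rw [hM2] at hbound
  have hkR : (1 : ℝ) ≤ k := by exact_mod_cast hk1
  have hkK : (k : ℝ) ≤ K * e := by exact_mod_cast hk2
  -- the term with the index
  have h1 : (k : ℝ) ^ α ≤ (K * e : ℝ) ^ β :=
    (Real.rpow_le_rpow_of_exponent_le hkR (le_max_left _ _)).trans
      (Real.rpow_le_rpow (by linarith) hkK hβ0)
  have h2 : D * (K * e : ℝ) ^ β < e := by
    rw [Real.mul_rpow hKR.le heR.le]
    have h3 : (e : ℝ) ^ (1 - β) * (e : ℝ) ^ β = e := by
      rw [← Real.rpow_add heR, sub_add_cancel, Real.rpow_one]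
    have h4 : 0 < (e : ℝ) ^ β := Real.rpow_pos_of_pos heR β
    calc D * ((K : ℝ) ^ β * (e : ℝ) ^ β) = D * (K : ℝ) ^ β * (e : ℝ) ^ β := by ring
      _ < (e : ℝ) ^ (1 - β) * (e : ℝ) ^ β := mul_lt_mul_of_pos_right he1 h4
      _ = e := h3
  -- the geometric term
  have h5 : ((1 : ℝ) / 4) ^ (((3 : ℕ) : ℝ) / 2) ≤ 1 :=
    Real.rpow_le_one (by norm_num) (by norm_num) (by positivity)
  have hinj0 : 0 < injRadius M := lt_of_lt_of_le (by norm_num) hM3
  have h6 : (injRadius M)⁻¹ ^ 3 ≤ 512 := by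
    have h7 : (injRadius M)⁻¹ ≤ 8 := by
      rw [inv_le_comm₀ hinj0 (by norm_num)]
      linarith
    calc (injRadius M)⁻¹ ^ 3 ≤ 8 ^ 3 := pow_le_pow_left₀ (inv_nonneg.mpr hinj0.le) h7 3
      _ = 512 := by norm_num
  have h8 : 0 ≤ (k : ℝ) ^ α := Real.rpow_nonneg (by linarith) _
  have h9 : 0 ≤ ((1 : ℝ) / 4) ^ (((3 : ℕ) : ℝ) / 2) := by positivity
  have h10 : 0 ≤ (injRadius M)⁻¹ ^ 3 := pow_nonneg (inv_nonneg.mpr hinj0.le) 3
  have h11 : C * ((k : ℝ) ^ α + e * (((1 : ℝ) / 4) ^ (((3 : ℕ) : ℝ) / 2) + (injRadius M)⁻¹ ^ 3)) ≤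
      D * ((K * e : ℝ) ^ β + e * 513) := by
    refine mul_le_mul (le_max_left _ _) ?_ (by positivity) (by linarith)
    have h12 : (e : ℝ) * (((1 : ℝ) / 4) ^ (((3 : ℕ) : ℝ) / 2) + (injRadius M)⁻¹ ^ 3) ≤ e * 513 :=
      mul_le_mul_of_nonneg_left (by linarith) heR.le
    linarith
  have h13 : ((c * e : ℕ) : ℝ) < (c * e : ℕ) := by
    calc ((c * e : ℕ) : ℝ) ≤ D * ((K * e : ℝ) ^ β + e * 513) := hbound.trans h11
      _ = D * (K * e : ℝ) ^ β + D * 513 * e := by ring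
      _ < e + D * 513 * e := by linarith
      _ = (D * 513 + 1) * e := by ring
      _ ≤ c * e := mul_le_mul_of_nonneg_right hc.le heR.le
      _ = (c * e : ℕ) := by push_cast; ring
  exact lt_irrefl _ h13

/-- **No bound with `k ^ α`, `α < 1`, in dimension three.** The first part is Q2 (negative), the
second part is Q1 for `n = 3` (positive), the third part is the family of manifolds that shows it. -/
theorem result :
    (¬ ∃ C : ℝ, MultBound 3 (1 - 1 / 3) C) ∧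
    (∀ α : ℝ, α < 1 → ¬ ∃ C : ℝ, MultBound 3 α C) ∧
    ∀ c : ℕ, 0 < c → ∃ K : ℕ, 0 < K ∧ ∀ e : ℕ, 0 < e → ∃ M : ClosedManifold 3,
      RicciGE M (-((3 - 1) * (1 / 4))) ∧ vol M = e ∧ 1 / 8 ≤ injRadius M ∧
        ∃ k : ℕ, 1 ≤ k ∧ k ≤ K * e ∧ ((c * e : ℕ) : ℕ∞) ≤ eigenMultiplicity M k :=
  ⟨no_bound _ (by norm_num), no_bound, family⟩

end Pool.Agent.Results.MP_1b44ce_gt.NoSublinearIndexBound
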